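import Pool.Agent.KK.StmtsC

/-!
# Squad KK, row JON: joining inside an indecomposable class
-/

set_option autoImplicit false

open scoped BigOperators
open Finset

namespace Pool.Agent.KK.H86

section count

variable {V : Type} [Fintype V] [DecidableEq V]

/-- a set of tuples in which the entry `i` is determined by the other ones -/
theorem ncard_det {m : ℕ} (i : Fin (m + 1)) (S : Set (Fin (m + 1) → V))
    (h : ∀ w ∈ S, ∀ w' ∈ S, Fin.removeNth i w = Fin.removeNth i w' → w i = w' i) :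
    S.ncard ≤ Fintype.card V ^ m := by
  have h1 : S.ncard ≤ (Set.univ : Set (Fin m → V)).ncard := by
    refine Set.ncard_le_ncard_of_injOn (fun w => Fin.removeNth i w) (fun w _ => Set.mem_univ _) ?_
      (Set.toFinite _)
    intro w hw w' hw' hww
    have h2 := h w hw w' hw' hww
    rw [← Fin.insertNth_self_removeNth i w, ← Fin.insertNth_self_removeNth i w', h2]
    exact congrArg _ hww
  rw [Set.ncard_univ, Nat.card_eq_fintype_card, Fintype.card_fun, Fintype.card_fin] at h1
  exact h1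

/-- the index set of the possible repetitions -/
abbrev KI (m e : ℕ) : Type := Fin m × (Fin m ⊕ (Fin e ⊕ Fin e))

/-- the repetition -/
def Rep {m e : ℕ} (a b : Fin e → V) (k : KI m e) : Set (Fin m → V) :=
  {w | match k.2 with
    | Sum.inl j => k.1 ≠ j ∧ w k.1 = w j
    | Sum.inr (Sum.inl l) => w k.1 = a l
    | Sum.inr (Sum.inr l) => w k.1 = b l}

theorem ncard_rep {m e : ℕ} (a b : Fin e → V) (k : KI (m + 1) e) :
    (Rep a b k).ncard ≤ Fintype.card V ^ m := by
  obtain ⟨i, x⟩ := k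
  refine ncard_det i _ ?_
  intro w hw w' hw' h
  rcases x with j | l | l
  · obtain ⟨hij, h1⟩ := hw
    obtain ⟨-, h2⟩ := hw'
    change i ≠ j at hij
    change w i = w j at h1
    change w' i = w' j at h2
    rw [h1, h2]
    obtain ⟨k, hk⟩ := Fin.exists_succAbove_eq (Ne.symm hij)
    have h3 := congrFun h k
    change w (i.succAbove k) = w' (i.succAbove k) at h3
    rwa [hk] at h3
  · change w i = a l at hw
    change w' i = a l at hw'
    rw [hw, hw']
  · change w i = b l at hw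
    change w' i = b l at hw'
    rw [hw, hw']

theorem nodup_of {m e : ℕ} (a b : Fin e → V) (ha : Function.Injective a)
    (hb : Function.Injective b) (hab : Disjoint (Set.range a) (Set.range b)) (w : Fin m → V)
    (h : ∀ k : KI m e, w ∉ Rep a b k) : (List.ofFn a ++ List.ofFn w ++ List.ofFn b).Nodup := by
  have h1 : Function.Injective w := by
    intro i j hij
    by_contra hne
    exact h (i, Sum.inl j) ⟨hne, hij⟩
  have h2 : ∀ i l, w i ≠ a l := fun i l h' => h (i, Sum.inr (Sum.inl l)) h'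
  have h3 : ∀ i l, w i ≠ b l := fun i l h' => h (i, Sum.inr (Sum.inr l)) h'
  have h4 : ∀ l l', a l ≠ b l' := by
    intro l l' h'
    exact Set.disjoint_left.1 hab ⟨l, rfl⟩ ⟨l', h'.symm⟩
  rw [List.nodup_append, List.nodup_append]
  refine ⟨⟨List.nodup_ofFn.2 ha, List.nodup_ofFn.2 h1, ?_⟩, List.nodup_ofFn.2 hb, ?_⟩
  · intro x hx y hy hxy
    rw [List.mem_ofFn] at hx hy
    obtain ⟨l, rfl⟩ := hx
    obtain ⟨i, rfl⟩ := hy
    exact h2 i l hxy.symm
  · intro x hx y hy hxy
    rw [List.mem_append, List.mem_ofFn, List.mem_ofFn] at hx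
    rw [List.mem_ofFn] at hy
    obtain ⟨l, rfl⟩ := hy
    rcases hx with ⟨l', rfl⟩ | ⟨i, rfl⟩
    · exact h4 l' l hxy
    · exact h3 i l hxy

/-- the number of the tuples with a repetition -/
theorem ncard_bad {m e : ℕ} (a b : Fin e → V) (ha : Function.Injective a)
    (hb : Function.Injective b) (hab : Disjoint (Set.range a) (Set.range b)) :
    ({w : Fin (m + 1) → V | ¬ (List.ofFn a ++ List.ofFn w ++ List.ofFn b).Nodup}).ncard ≤
      (m + 1) * (m + 1 + 2 * e) * Fintype.card V ^ m := by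
  classical
  have h1 : {w : Fin (m + 1) → V | ¬ (List.ofFn a ++ List.ofFn w ++ List.ofFn b).Nodup} ⊆
      ⋃ k ∈ (Finset.univ : Finset (KI (m + 1) e)), Rep a b k := by
    intro w hw
    by_contra hcon
    apply hw
    refine nodup_of a b ha hb hab w ?_
    intro k hk
    apply hcon
    exact Set.mem_biUnion (Finset.mem_coe.2 (Finset.mem_univ k)) hk
  refine (Set.ncard_le_ncard h1 (Set.toFinite _)).trans ?_
  refine (Finset.set_ncard_biUnion_le _ _).trans ?_
  refine (Finset.sum_le_sum fun k _ => ncard_rep a b k).trans ?_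
  rw [Finset.sum_const, smul_eq_mul, Finset.card_univ]
  refine le_of_eq ?_
  congr 1
  rw [Fintype.card_prod, Fintype.card_sum, Fintype.card_sum, Fintype.card_fin, Fintype.card_fin]
  ring

end count

theorem jon (hREA : ReaStmt) (hWKT : WktStmt) : JonStmt := by
  intro d ε β c₁ u₀ hε hβ hc hu
  obtain ⟨M, c, hc0, hmain⟩ := hREA (d + 1) (d + 2) ε β c₁ u₀ (by positivity) hε hβ hc hu
  obtain ⟨n₀, hn₀⟩ := exists_nat_gt (2 * ((M : ℝ) * (M + 2 * (d + 1))) / c)
  refine ⟨M, c / 2, n₀ + 1, by positivity, ?_⟩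
  intro V _ _ H hn hH U hU hind a b t t' ha hb hab hF hB
  classical
  obtain ⟨n, hndef⟩ : ∃ n, n = Fintype.card V := ⟨_, rfl⟩
  have hn1 : 0 < n := by omega
  have hn1' : (0 : ℝ) < n := by exact_mod_cast hn1
  have hnc : 2 * ((M : ℝ) * (M + 2 * (d + 1))) ≤ c * n := by
    have h1 : (n₀ : ℝ) ≤ n := by
      have : n₀ ≤ n := by omega
      exact_mod_cast this
    rw [div_lt_iff₀ hc0] at hn₀
    nlinarith
  have hpred : ∀ x : Sta V d, (({z | St H z x} : Set (Sta V d)).ncard : ℝ) ≤ (n : ℝ) := by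
    intro x
    have h1 : ({z | St H z x} : Set (Sta V d)).ncard ≤ (Set.univ : Set V).ncard := by
      refine Set.ncard_le_ncard_of_injOn (fun z : Sta V d => z.1 0) (fun z _ => Set.mem_univ _) ?_
        (Set.toFinite _)
      rintro ⟨z, τ⟩ ⟨h1, h2, -⟩ ⟨z', τ'⟩ ⟨h1', h2', -⟩ h
      change x.2 = τ + 1 at h1
      change x.2 = τ' + 1 at h1'
      change Fin.init x.1 = Fin.tail z at h2
      change Fin.init x.1 = Fin.tail z' at h2'
      change z 0 = z' 0 at h
      have e1 : τ = τ' := add_right_cancel (h1.symm.trans h1')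
      have e2 : z = z' := by
        rw [← Fin.cons_self_tail z, ← Fin.cons_self_tail z', h, ← h2, ← h2']
      rw [e1, e2]
    rw [Set.ncard_univ, Nat.card_eq_fintype_card, ← hndef] at h1
    exact_mod_cast h1
  have hsucc : ∀ x : Sta V d, (({z | St H x z} : Set (Sta V d)).ncard : ℝ) ≤ (n : ℝ) := by
    intro x
    have h1 : ({z | St H x z} : Set (Sta V d)).ncard ≤ (Set.univ : Set V).ncard := by
      refine Set.ncard_le_ncard_of_injOn (fun z : Sta V d => z.1 (Fin.last d))
        (fun z _ => Set.mem_univ _) ?_ (Set.toFinite _)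
      rintro ⟨z, τ⟩ ⟨h1, h2, -⟩ ⟨z', τ'⟩ ⟨h1', h2', -⟩ h
      change τ = x.2 + 1 at h1
      change τ' = x.2 + 1 at h1'
      change Fin.init z = Fin.tail x.1 at h2
      change Fin.init z' = Fin.tail x.1 at h2'
      change z (Fin.last d) = z' (Fin.last d) at h
      have e2 : z = z' := by
        rw [← Fin.snoc_init_self z, ← Fin.snoc_init_self z', h, h2, h2']
      rw [h1, h1', e2]
    rw [Set.ncard_univ, Nat.card_eq_fintype_card, ← hndef] at h1
    exact_mod_cast h1
  have hone : ∀ x y : Sta V d, wk (St H) (d + 1) x y ≤ 1 := by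
    rintro ⟨x, τ⟩ ⟨y, τ'⟩
    obtain ⟨h1, h2⟩ := hWKT d (d + 1) V H hH le_rfl x y τ τ'
    by_cases h : τ' = τ + ((d + 1 : ℕ) : ZMod (d + 2))
    · rw [h1 h]
      have hE : IsEmpty (Fin (d + 1 - (d + 1))) := by
        rw [Nat.sub_self]
        infer_instance
      have hS : Subsingleton (Fin (d + 1 - (d + 1)) → V) := inferInstance
      exact Set.ncard_le_one_iff_subsingleton.2 (Set.subsingleton_of_subsingleton)
    · rw [h2 h]
      exact Nat.zero_le _
  have hUc : (U.ncard : ℝ) ≤ (d + 2) * (n : ℝ) ^ (d + 1) := by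
    have h1 : U.ncard ≤ (Set.univ : Set (Sta V d)).ncard :=
      Set.ncard_le_ncard (Set.subset_univ _) (Set.toFinite _)
    rw [Set.ncard_univ, Nat.card_eq_fintype_card, Fintype.card_prod, Fintype.card_fun,
      Fintype.card_fin, ZMod.card, ← hndef] at h1
    have h2 : (U.ncard : ℝ) ≤ (n : ℝ) ^ (d + 1) * (d + 2) := by exact_mod_cast h1
    linarith
  rw [← hndef] at hU
  unfold Indec at hind
  unfold GoodF at hF
  unfold GoodB at hB
  rw [← hndef] at hind hF hB
  obtain ⟨m, hmM, hm2, hwk⟩ := hmain (Sta V d) (St H) n U hn1' hpred hsucc hone hUc hU hind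
    (a, t) (b, t') hF hB
  obtain ⟨h1, h2⟩ := hWKT d m V H hH (by omega) a b t t'
  have ht : t' = t + (m : ZMod (d + 2)) := by
    by_contra hne
    rw [h2 hne] at hwk
    have : 0 < c * (n : ℝ) ^ (m - (d + 1)) := by positivity
    push_cast at hwk
    linarith
  rw [h1 ht] at hwk
  obtain ⟨m', hm'⟩ : ∃ m' : ℕ, m - (d + 1) = m' + 1 := ⟨m - (d + 1) - 1, by omega⟩
  have hmm : m = m' + 1 + (d + 1) := by omega
  rw [hm'] at hwk
  refine ⟨m' + 1, by omega, ?_, ?_⟩
  · rw [ht, hmm]
    push_cast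
    ring
  · rw [← hndef]
    unfold con
    obtain ⟨W, hW⟩ : ∃ W : Set (Fin (m' + 1) → V), W =
      {w | Tight H (d + 2) (List.ofFn a ++ List.ofFn w ++ List.ofFn b)} := ⟨_, rfl⟩
    obtain ⟨P, hP⟩ : ∃ P : Set (Fin (m' + 1) → V), P =
      {w | Path H (d + 2) (List.ofFn a ++ List.ofFn w ++ List.ofFn b)} := ⟨_, rfl⟩
    obtain ⟨B, hBd⟩ : ∃ B : Set (Fin (m' + 1) → V), B =
      {w | ¬ (List.ofFn a ++ List.ofFn w ++ List.ofFn b).Nodup} := ⟨_, rfl⟩
    rw [← hW] at hwk
    rw [← hP]
    have hsub : W ⊆ P ∪ B := by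
      intro w hw
      rw [hW] at hw
      by_cases hnd : (List.ofFn a ++ List.ofFn w ++ List.ofFn b).Nodup
      · left
        rw [hP]
        exact ⟨hnd, hw⟩
      · right
        rw [hBd]
        exact hnd
    have h3 : W.ncard ≤ P.ncard + B.ncard :=
      (Set.ncard_le_ncard hsub (Set.toFinite _)).trans (Set.ncard_union_le _ _)
    have h4 : B.ncard ≤ (m' + 1) * (m' + 1 + 2 * (d + 1)) * n ^ m' := by
      rw [hBd, hndef]
      exact ncard_bad a b ha hb hab
    have h5 : (W.ncard : ℝ) ≤ P.ncard + (m' + 1) * (m' + 1 + 2 * (d + 1)) * (n : ℝ) ^ m' := by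
      have h6 : W.ncard ≤ P.ncard + (m' + 1) * (m' + 1 + 2 * (d + 1)) * n ^ m' := by omega
      exact_mod_cast h6
    have h7 : ((m' : ℝ) + 1) * (m' + 1 + 2 * (d + 1)) ≤ M * (M + 2 * (d + 1)) := by
      have h8 : (m' : ℝ) + 1 ≤ M := by
        have : m' + 1 ≤ M := by omega
        exact_mod_cast this
      have h9 : (0 : ℝ) ≤ m' := Nat.cast_nonneg _
      have h10 : (0 : ℝ) ≤ d := Nat.cast_nonneg _
      exact mul_le_mul h8 (by linarith) (by positivity) (by linarith)
    have h11 : (0 : ℝ) < (n : ℝ) ^ m' := by positivity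
    have h12 : ((m' : ℝ) + 1) * (m' + 1 + 2 * (d + 1)) * (n : ℝ) ^ m' ≤
        c / 2 * (n : ℝ) ^ (m' + 1) := by
      calc ((m' : ℝ) + 1) * (m' + 1 + 2 * (d + 1)) * (n : ℝ) ^ m' ≤
            (c * n / 2) * (n : ℝ) ^ m' :=
              mul_le_mul_of_nonneg_right (by linarith) h11.le
        _ = c / 2 * (n : ℝ) ^ (m' + 1) := by rw [pow_succ]; ring
    linarith

end Pool.Agent.KK.H86
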