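import Pool.Agent.KK.StmtsC

/-!
# Squad KK, row REA: the reach lemma
-/

set_option autoImplicit false

open scoped BigOperators
open Finset

namespace Pool.Agent.KK.H86

open scoped Classical

section walks

variable {Ω : Type} [Fintype Ω] (E : Ω → Ω → Prop)

theorem wk_zero (s t : Ω) : wk E 0 s t = if s = t then 1 else 0 := rfl

theorem wk_succ (m : ℕ) (s t : Ω) :
    wk E (m + 1) s t = ∑ z : Ω, wk E m s z * (if E z t then 1 else 0) := rfl

/-- composition of walks -/
theorem wk_add (a b : ℕ) (s t : Ω) :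
    wk E (a + b) s t = ∑ z : Ω, wk E a s z * wk E b z t := by
  induction b generalizing t with
  | zero =>
    rw [add_zero, Finset.sum_eq_single t]
    · rw [wk_zero, if_pos rfl, mul_one]
    · intro z _ hz
      rw [wk_zero, if_neg hz, mul_zero]
    · intro h
      exact absurd (Finset.mem_univ _) h
  | succ b ih =>
    rw [← add_assoc, wk_succ]
    simp_rw [ih, wk_succ, Finset.sum_mul, Finset.mul_sum]
    rw [Finset.sum_comm]
    refine Finset.sum_congr rfl fun z _ => Finset.sum_congr rfl fun y _ => ?_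
    ring

theorem wk_one (s t : Ω) : wk E 1 s t = if E s t then 1 else 0 := by
  rw [wk_succ, Finset.sum_eq_single s]
  · rw [wk_zero, if_pos rfl, one_mul]
  · intro z _ hz
    rw [wk_zero, if_neg (Ne.symm hz), zero_mul]
  · intro h
    exact absurd (Finset.mem_univ _) h

/-- reversed walks -/
theorem wk_rev (m : ℕ) (s t : Ω) : wk (fun x y => E y x) m t s = wk E m s t := by
  induction m generalizing s with
  | zero =>
    rw [wk_zero, wk_zero]
    by_cases h : s = t
    · rw [if_pos h, if_pos h.symm]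
    · rw [if_neg h, if_neg (Ne.symm h)]
  | succ m ih =>
    rw [add_comm m 1, wk_add E 1 m s t, add_comm 1 m, wk_succ]
    refine Finset.sum_congr rfl fun z _ => ?_
    rw [ih z, wk_one, mul_comm]

/-- many predecessors with many walks -/
theorem wk_ge (m : ℕ) (s t : Ω) (S : Finset Ω) (x : ℝ) (hS : ∀ z ∈ S, E z t)
    (hx : ∀ z ∈ S, x ≤ wk E m s z) : S.card * x ≤ wk E (m + 1) s t := by
  rw [wk_succ]
  push_cast
  calc (S.card : ℝ) * x = ∑ z ∈ S, x := by rw [Finset.sum_const, nsmul_eq_mul]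
    _ ≤ ∑ z ∈ S, (wk E m s z : ℝ) * (if E z t then 1 else 0) := by
        refine Finset.sum_le_sum fun z hz => ?_
        rw [if_pos (hS z hz), mul_one]
        exact hx z hz
    _ ≤ ∑ z : Ω, (wk E m s z : ℝ) * (if E z t then 1 else 0) := by
        refine Finset.sum_le_sum_of_subset_of_nonneg (Finset.subset_univ _) fun z _ _ => ?_
        exact mul_nonneg (Nat.cast_nonneg _) (by split_ifs <;> norm_num)

end walks

section reach

variable {Ω : Type} [Fintype Ω] (E : Ω → Ω → Prop)

/-- the states which are reached by many walks -/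
noncomputable def RR (r : ℕ) (θ q N : ℝ) (s : Ω) (U : Finset Ω) (i : ℕ) : Finset Ω :=
  U.filter fun z => ∃ j ≤ i, θ * q ^ i * N ^ j ≤ wk E (r + j) s z

theorem reach (r I : ℕ) (C ε β c₁ N q : ℝ) (hC : 0 < C) (hε : 0 < ε)
    (hβ : 0 < β) (hc : 2 * β < c₁) (hN : 0 < N) (hI : 2 * C / ε < I)
    (hq0 : 0 < q) (hq1 : q ≤ 1) (hq2 : (I + 1) * q ≤ ε / (2 * C)) (U : Finset Ω)
    (hin : ∀ t, ((univ.filter fun z => E z t).card : ℝ) ≤ N) (h1 : ∀ s t, wk E r s t ≤ 1)
    (hU : (U.card : ℝ) ≤ C * N ^ r)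
    (hD : ∀ D ⊆ U, ε * N ^ (r + 1) ≤ (((D ×ˢ (U \ D)).filter fun p => E p.1 p.2).card : ℝ) ∨
      (D.card : ℝ) ≤ β * N ^ r ∨ ((U \ D).card : ℝ) ≤ β * N ^ r)
    (s : Ω) (hs : c₁ * N ^ r ≤ ∑ z ∈ U, (wk E r s z : ℝ)) :
    ((U \ RR E r (c₁ / (2 * C)) q N s U I).card : ℝ) ≤ β * N ^ r := by
  have hNr : 0 < N ^ r := pow_pos hN r
  have hc0 : 0 < c₁ := by linarith
  obtain ⟨θ, hθ⟩ : ∃ θ : ℝ, θ = c₁ / (2 * C) := ⟨_, rfl⟩
  rw [← hθ]
  have hθ0 : 0 < θ := by rw [hθ]; positivity
  obtain ⟨R, hR⟩ : ∃ R : ℕ → Finset Ω, R = RR E r θ q N s U := ⟨_, rfl⟩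
  rw [← hR]
  have hRm : ∀ i z, z ∈ R i ↔ z ∈ U ∧ ∃ j ≤ i, θ * q ^ i * N ^ j ≤ wk E (r + j) s z := by
    intro i z
    rw [hR]
    unfold RR
    rw [mem_filter]
  have hRU : ∀ i, R i ⊆ U := fun i z hz => ((hRm i z).1 hz).1
  have hmono : ∀ i, R i ⊆ R (i + 1) := by
    intro i z hz
    obtain ⟨h1, j, hj, h2⟩ := (hRm i z).1 hz
    refine (hRm _ _).2 ⟨h1, j, by omega, le_trans ?_ h2⟩
    have h3 : q ^ (i + 1) ≤ q ^ i := pow_le_pow_of_le_one hq0.le hq1 (by omega)
    have h4 : 0 ≤ N ^ j := (pow_pos hN j).le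
    exact mul_le_mul_of_nonneg_right (mul_le_mul_of_nonneg_left h3 hθ0.le) h4
  -- the beginning
  have hstart : β * N ^ r < (R 0).card := by
    have h2 : ∑ z ∈ U, (wk E r s z : ℝ) ≤ (R 0).card + θ * U.card := by
      have h3 : ∑ z ∈ U, (wk E r s z : ℝ) = ∑ z ∈ R 0, (wk E r s z : ℝ) +
          ∑ z ∈ U \ R 0, (wk E r s z : ℝ) := by
        rw [add_comm, Finset.sum_sdiff (hRU 0)]
      have h4 : ∑ z ∈ R 0, (wk E r s z : ℝ) ≤ (R 0).card := by
        calc ∑ z ∈ R 0, (wk E r s z : ℝ) ≤ ∑ z ∈ R 0, (1 : ℝ) :=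
              Finset.sum_le_sum fun z _ => by exact_mod_cast h1 s z
          _ = (R 0).card := by rw [Finset.sum_const, nsmul_eq_mul, mul_one]
      have h5 : ∑ z ∈ U \ R 0, (wk E r s z : ℝ) ≤ θ * U.card := by
        calc ∑ z ∈ U \ R 0, (wk E r s z : ℝ) ≤ ∑ z ∈ U \ R 0, θ := by
              refine Finset.sum_le_sum fun z hz => ?_
              obtain ⟨hz1, hz2⟩ := Finset.mem_sdiff.1 hz
              by_contra hcon
              push Not at hcon
              apply hz2
              refine (hRm _ _).2 ⟨hz1, 0, le_refl _, ?_⟩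
              rw [pow_zero, pow_zero, mul_one, mul_one, add_zero]
              exact hcon.le
          _ = (U \ R 0).card * θ := by rw [Finset.sum_const, nsmul_eq_mul]
          _ ≤ U.card * θ := by
              refine mul_le_mul_of_nonneg_right ?_ hθ0.le
              exact_mod_cast Finset.card_le_card Finset.sdiff_subset
          _ = θ * U.card := mul_comm _ _
      linarith
    have h3 : θ * U.card ≤ c₁ / 2 * N ^ r := by
      calc θ * U.card ≤ θ * (C * N ^ r) := mul_le_mul_of_nonneg_left hU hθ0.le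
        _ = c₁ / 2 * N ^ r := by rw [hθ]; field_simp
    nlinarith
  -- the step
  have hstep : ∀ i ≤ I, β * N ^ r < ((U \ R i).card : ℝ) → β * N ^ r < (R i).card →
      ((R i).card : ℝ) + ε / 2 * N ^ r ≤ (R (i + 1)).card := by
    intro i hi hlt hlt'
    have hP : ε * N ^ (r + 1) ≤
        ((((R i) ×ˢ (U \ R i)).filter fun p => E p.1 p.2).card : ℝ) := by
      rcases hD (R i) (hRU i) with h | h | h
      · exact h
      · exact absurd h (not_le.2 hlt')
      · exact absurd h (not_le.2 hlt)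
    -- the number of the steps into `z`
    obtain ⟨d, hd⟩ : ∃ d : Ω → Finset Ω, d = fun z' => (R i).filter fun z => E z z' := ⟨_, rfl⟩
    have hdN : ∀ z', ((d z').card : ℝ) ≤ N := by
      intro z'
      refine le_trans ?_ (hin z')
      rw [hd]
      exact_mod_cast Finset.card_le_card (Finset.filter_subset_filter _ (Finset.subset_univ _))
    have hPsum : ((((R i) ×ˢ (U \ R i)).filter fun p => E p.1 p.2).card : ℝ) =
        ∑ z' ∈ U \ R i, ((d z').card : ℝ) := by
      rw [Finset.card_filter, Finset.sum_product_right]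
      push_cast
      refine Finset.sum_congr rfl fun z' _ => ?_
      rw [hd, Finset.card_filter]
      push_cast
      rfl
    obtain ⟨G, hG⟩ : ∃ G : Finset Ω, G = (U \ R i).filter fun z' => ε / (2 * C) * N ≤ (d z').card :=
      ⟨_, rfl⟩
    have hGU : G ⊆ U \ R i := by
      rw [hG]
      exact Finset.filter_subset _ _
    have hGcard : ε / 2 * N ^ r ≤ G.card := by
      have h2 : ∑ z' ∈ U \ R i, ((d z').card : ℝ) ≤ G.card * N + ε / (2 * C) * N * U.card := by
        have h3 : ∑ z' ∈ U \ R i, ((d z').card : ℝ) = ∑ z' ∈ G, ((d z').card : ℝ) +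
            ∑ z' ∈ (U \ R i) \ G, ((d z').card : ℝ) := by
          rw [add_comm, Finset.sum_sdiff hGU]
        have h4 : ∑ z' ∈ G, ((d z').card : ℝ) ≤ G.card * N := by
          calc ∑ z' ∈ G, ((d z').card : ℝ) ≤ ∑ z' ∈ G, N := Finset.sum_le_sum fun z _ => hdN z
            _ = G.card * N := by rw [Finset.sum_const, nsmul_eq_mul]
        have h5 : ∑ z' ∈ (U \ R i) \ G, ((d z').card : ℝ) ≤ ε / (2 * C) * N * U.card := by
          calc ∑ z' ∈ (U \ R i) \ G, ((d z').card : ℝ) ≤ ∑ z' ∈ (U \ R i) \ G, ε / (2 * C) * N := by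
                refine Finset.sum_le_sum fun z hz => ?_
                obtain ⟨hz1, hz2⟩ := Finset.mem_sdiff.1 hz
                by_contra hcon
                push Not at hcon
                apply hz2
                rw [hG]
                exact Finset.mem_filter.2 ⟨hz1, hcon.le⟩
            _ = (((U \ R i) \ G).card : ℝ) * (ε / (2 * C) * N) := by
                rw [Finset.sum_const, nsmul_eq_mul]
            _ ≤ (U.card : ℝ) * (ε / (2 * C) * N) := by
                refine mul_le_mul_of_nonneg_right ?_ (by positivity)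
                exact_mod_cast Finset.card_le_card
                  (Finset.sdiff_subset.trans Finset.sdiff_subset)
            _ = ε / (2 * C) * N * U.card := mul_comm _ _
        linarith
      have h3 : ε / (2 * C) * N * U.card ≤ ε / 2 * N ^ (r + 1) := by
        calc ε / (2 * C) * N * U.card ≤ ε / (2 * C) * N * (C * N ^ r) :=
              mul_le_mul_of_nonneg_left hU (by positivity)
          _ = ε / 2 * N ^ (r + 1) := by rw [pow_succ]; field_simp
      rw [hPsum] at hP
      have h4 : ε / 2 * N ^ (r + 1) ≤ G.card * N := by linarith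
      have h5 : (ε / 2 * N ^ r) * N ≤ G.card * N := by
        calc (ε / 2 * N ^ r) * N = ε / 2 * N ^ (r + 1) := by rw [pow_succ]; ring
          _ ≤ _ := h4
      exact le_of_mul_le_mul_right h5 hN
    -- the elements of `G` are reached
    have hGR : G ⊆ R (i + 1) := by
      intro z' hz'
      rw [hG, Finset.mem_filter] at hz'
      obtain ⟨hz1, hz2⟩ := hz'
      have hz1' := (Finset.mem_sdiff.1 hz1).1
      obtain ⟨S, hS⟩ : ∃ S : ℕ → Finset Ω,
        S = fun j => (d z').filter fun z => θ * q ^ i * N ^ j ≤ wk E (r + j) s z := ⟨_, rfl⟩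
      have hcov : d z' ⊆ (Finset.range (i + 1)).biUnion S := by
        intro z hz
        have hz3 : z ∈ R i := by
          rw [hd] at hz
          exact (Finset.mem_filter.1 hz).1
        obtain ⟨-, j, hj, h⟩ := (hRm i z).1 hz3
        rw [Finset.mem_biUnion]
        refine ⟨j, Finset.mem_range.2 (by omega), ?_⟩
        rw [hS]
        exact Finset.mem_filter.2 ⟨hz, h⟩
      have hj : ∃ j ∈ Finset.range (i + 1), q * N ≤ (S j).card := by
        by_contra hcon
        push Not at hcon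
        have h2 : ((d z').card : ℝ) ≤ ∑ j ∈ Finset.range (i + 1), ((S j).card : ℝ) := by
          exact_mod_cast (Finset.card_le_card hcov).trans Finset.card_biUnion_le
        have h3 : ∑ j ∈ Finset.range (i + 1), ((S j).card : ℝ) <
            ∑ j ∈ Finset.range (i + 1), q * N :=
          Finset.sum_lt_sum_of_nonempty ⟨0, Finset.mem_range.2 (by omega)⟩ hcon
        rw [Finset.sum_const, Finset.card_range, nsmul_eq_mul] at h3
        have h4 : ((i + 1 : ℕ) : ℝ) * (q * N) ≤ ε / (2 * C) * N := by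
          have h5 : ((i + 1 : ℕ) : ℝ) ≤ I + 1 := by
            push_cast
            have : (i : ℝ) ≤ I := by exact_mod_cast hi
            linarith
          calc ((i + 1 : ℕ) : ℝ) * (q * N) ≤ (I + 1) * (q * N) :=
                mul_le_mul_of_nonneg_right h5 (by positivity)
            _ = ((I + 1) * q) * N := by ring
            _ ≤ ε / (2 * C) * N := mul_le_mul_of_nonneg_right hq2 hN.le
        linarith
      obtain ⟨j, hj, hjc⟩ := hj
      refine (hRm _ _).2 ⟨hz1', j + 1, by
        have := Finset.mem_range.1 hj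
        omega, ?_⟩
      have h2 := wk_ge E (r + j) s z' (S j) (θ * q ^ i * N ^ j)
        (by
          intro z hz
          rw [hS] at hz
          have h3 := (Finset.mem_filter.1 hz).1
          rw [hd] at h3
          exact (Finset.mem_filter.1 h3).2)
        (by
          intro z hz
          rw [hS] at hz
          exact (Finset.mem_filter.1 hz).2)
      refine le_trans ?_ h2
      have h3 : 0 ≤ θ * q ^ i * N ^ j := by positivity
      calc θ * q ^ (i + 1) * N ^ (j + 1) = (q * N) * (θ * q ^ i * N ^ j) := by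
            rw [pow_succ, pow_succ]; ring
        _ ≤ (S j).card * (θ * q ^ i * N ^ j) := mul_le_mul_of_nonneg_right hjc h3
    have hdis : Disjoint (R i) G := by
      rw [Finset.disjoint_left]
      intro z hz hzG
      exact (Finset.mem_sdiff.1 (hGU hzG)).2 hz
    have hun : R i ∪ G ⊆ R (i + 1) := Finset.union_subset (hmono i) hGR
    have h2 := Finset.card_le_card hun
    rw [Finset.card_union_of_disjoint hdis] at h2
    have h3 : ((R i).card : ℝ) + G.card ≤ (R (i + 1)).card := by exact_mod_cast h2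
    linarith
  -- the induction
  have hind : ∀ i ≤ I, ((U \ R i).card : ℝ) ≤ β * N ^ r ∨
      (β * N ^ r < (R i).card ∧ i * (ε / 2 * N ^ r) ≤ (R i).card) := by
    intro i
    induction i with
    | zero =>
      intro _
      right
      refine ⟨hstart, ?_⟩
      push_cast
      rw [zero_mul]
      exact Nat.cast_nonneg _
    | succ i ih =>
      intro hi
      rcases ih (by omega) with h | ⟨h, h'⟩
      · left
        refine le_trans ?_ h
        exact_mod_cast Finset.card_le_card (Finset.sdiff_subset_sdiff (Finset.Subset.refl _)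
          (hmono i))
      · by_cases h2 : ((U \ R i).card : ℝ) ≤ β * N ^ r
        · left
          refine le_trans ?_ h2
          exact_mod_cast Finset.card_le_card (Finset.sdiff_subset_sdiff (Finset.Subset.refl _)
            (hmono i))
        · right
          have h3 := hstep i (by omega) (not_le.1 h2) h
          have h4 : 0 < ε / 2 * N ^ r := by positivity
          refine ⟨by linarith, ?_⟩
          push_cast
          linarith
  rcases hind I le_rfl with h | ⟨-, h⟩
  · exact h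
  · exfalso
    have h2 : ((R I).card : ℝ) ≤ C * N ^ r := by
      refine le_trans ?_ hU
      exact_mod_cast Finset.card_le_card (hRU I)
    have h3 : (I : ℝ) * (ε / 2 * N ^ r) ≤ C * N ^ r := h.trans h2
    have h4 : (I : ℝ) * (ε / 2) ≤ C := by
      refine le_of_mul_le_mul_right ?_ hNr
      calc (I : ℝ) * (ε / 2) * N ^ r = I * (ε / 2 * N ^ r) := by ring
        _ ≤ C * N ^ r := h3
    rw [div_lt_iff₀ hε] at hI
    linarith

end reach

theorem rea : ReaStmt := by
  intro r C ε β c₁ u₀ hC hε hβ hc hu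
  obtain ⟨I, hI⟩ := exists_nat_gt (2 * C / ε)
  obtain ⟨q, hq⟩ : ∃ q : ℝ, q = min 1 (ε / (2 * C * (I + 1))) := ⟨_, rfl⟩
  have hI0 : (0 : ℝ) ≤ I := Nat.cast_nonneg _
  have hq0 : 0 < q := by
    rw [hq]
    exact lt_min one_pos (by positivity)
  have hq1 : q ≤ 1 := by
    rw [hq]
    exact min_le_left _ _
  have hq2 : (I + 1) * q ≤ ε / (2 * C) := by
    have h1 : q ≤ ε / (2 * C * (I + 1)) := by
      rw [hq]
      exact min_le_right _ _
    calc (I + 1) * q ≤ (I + 1) * (ε / (2 * C * (I + 1))) :=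
          mul_le_mul_of_nonneg_left h1 (by positivity)
      _ = ε / (2 * C) := by field_simp
  have hc0 : 0 < c₁ := by linarith
  obtain ⟨θ, hθ⟩ : ∃ θ : ℝ, θ = c₁ / (2 * C) := ⟨_, rfl⟩
  have hθ0 : 0 < θ := by rw [hθ]; positivity
  have hu0 : 0 < u₀ - 2 * β := by linarith
  refine ⟨2 * (r + I), (u₀ - 2 * β) / (I + 1) ^ 2 * (θ * q ^ I) ^ 2, by positivity, ?_⟩
  intro Ω _ E N U hN hin hout h1 hU hu₀ hD s t hs ht
  have hNr : 0 < N ^ r := pow_pos hN r
  -- finite sets
  obtain ⟨U', hU'⟩ : ∃ U' : Finset Ω, U' = U.toFinset := ⟨_, rfl⟩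
  have hmU : ∀ z, z ∈ U' ↔ z ∈ U := by
    intro z
    rw [hU', Set.mem_toFinset]
  have hnc : ∀ p : Ω → Prop, ({z | p z} : Set Ω).ncard = (univ.filter fun z => p z).card := by
    intro p
    rw [Set.ncard_eq_toFinset_card']
    congr 1
    ext z
    simp
  have hUc : U.ncard = U'.card := by rw [Set.ncard_eq_toFinset_card', hU']
  have hUc1 : (U'.card : ℝ) ≤ C * N ^ r := by rw [← hUc]; exact hU
  have hin' : ∀ t, ((univ.filter fun z => E z t).card : ℝ) ≤ N := by
    intro t
    rw [← hnc]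
    exact hin t
  have hout' : ∀ s, ((univ.filter fun z => E s z).card : ℝ) ≤ N := by
    intro s
    rw [← hnc]
    exact hout s
  have hD1 : ∀ D ⊆ U', ε * N ^ (r + 1) ≤
      (((D ×ˢ (U' \ D)).filter fun p => E p.1 p.2).card : ℝ) ∨
      (D.card : ℝ) ≤ β * N ^ r ∨ ((U' \ D).card : ℝ) ≤ β * N ^ r := by
    intro D hDU
    have h2 := hD (D : Set Ω) (fun z hz => (hmU z).1 (hDU hz))
    have e1 : ({p : Ω × Ω | p.1 ∈ (D : Set Ω) ∧ p.2 ∈ U \ (D : Set Ω) ∧ E p.1 p.2} :
        Set (Ω × Ω)).ncard = ((D ×ˢ (U' \ D)).filter fun p => E p.1 p.2).card := by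
      rw [← Set.ncard_coe_finset]
      congr 1
      ext p
      simp only [Set.mem_setOf_eq, Finset.mem_coe, Set.mem_sdiff, Finset.mem_filter,
        Finset.mem_product, Finset.mem_sdiff, hmU]
      tauto
    have e2 : (U \ (D : Set Ω)).ncard = (U' \ D).card := by
      rw [← Set.ncard_coe_finset]
      congr 1
      ext z
      simp only [Set.mem_sdiff, Finset.mem_coe, Finset.mem_sdiff, hmU]
    rw [e1, e2, Set.ncard_coe_finset] at h2
    exact h2
  have hD2 : ∀ D ⊆ U', ε * N ^ (r + 1) ≤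
      (((D ×ˢ (U' \ D)).filter fun p => E p.2 p.1).card : ℝ) ∨
      (D.card : ℝ) ≤ β * N ^ r ∨ ((U' \ D).card : ℝ) ≤ β * N ^ r := by
    intro D hDU
    have h2 := hD1 (U' \ D) Finset.sdiff_subset
    rw [Finset.sdiff_sdiff_eq_self hDU] at h2
    have e1 : (((U' \ D) ×ˢ D).filter fun p => E p.1 p.2).card =
        ((D ×ˢ (U' \ D)).filter fun p => E p.2 p.1).card := by
      refine Finset.card_bij (fun p _ => (p.2, p.1)) ?_ ?_ ?_
      · rintro ⟨a, b⟩ h
        simp only [Finset.mem_filter, Finset.mem_product] at h ⊢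
        exact ⟨⟨h.1.2, h.1.1⟩, h.2⟩
      · rintro ⟨a, b⟩ _ ⟨a', b'⟩ _ h
        simp only [Prod.mk.injEq] at h
        simp [h.1, h.2]
      · rintro ⟨a, b⟩ h
        refine ⟨(b, a), ?_, rfl⟩
        simp only [Finset.mem_filter, Finset.mem_product] at h ⊢
        exact ⟨⟨h.1.2, h.1.1⟩, h.2⟩
    rw [e1] at h2
    rcases h2 with h | h | h
    · exact Or.inl h
    · exact Or.inr (Or.inr h)
    · exact Or.inr (Or.inl h)
  have hs' : c₁ * N ^ r ≤ ∑ z ∈ U', (wk E r s z : ℝ) := by
    rw [finsum_mem_eq_toFinset_sum] at hs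
    rw [hU']
    exact hs
  have ht' : c₁ * N ^ r ≤ ∑ z ∈ U', (wk (fun x y => E y x) r t z : ℝ) := by
    rw [finsum_mem_eq_toFinset_sum] at ht
    rw [hU']
    refine ht.trans (le_of_eq ?_)
    exact Finset.sum_congr rfl fun z _ => by rw [wk_rev]
  have hA := reach E r I C ε β c₁ N q hC hε hβ hc hN hI hq0 hq1 hq2 U' hin' h1 hUc1 hD1 s hs'
  have hB := reach (fun x y => E y x) r I C ε β c₁ N q hC hε hβ hc hN hI hq0 hq1 hq2 U' hout'
    (fun a b => by rw [wk_rev]; exact h1 b a) hUc1 hD2 t ht'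
  rw [← hθ] at hA hB
  obtain ⟨A, hAdef⟩ : ∃ A, A = RR E r θ q N s U' I := ⟨_, rfl⟩
  obtain ⟨B, hBdef⟩ : ∃ B, B = RR (fun x y => E y x) r θ q N t U' I := ⟨_, rfl⟩
  rw [← hAdef] at hA
  rw [← hBdef] at hB
  have hAm : ∀ z ∈ A, z ∈ U' ∧ ∃ j ≤ I, θ * q ^ I * N ^ j ≤ wk E (r + j) s z := by
    intro z hz
    rw [hAdef] at hz
    exact Finset.mem_filter.1 hz
  have hBm : ∀ z ∈ B, z ∈ U' ∧ ∃ j ≤ I, θ * q ^ I * N ^ j ≤ wk E (r + j) z t := by
    intro z hz
    rw [hBdef] at hz
    obtain ⟨h2, j, hj, h3⟩ := Finset.mem_filter.1 hz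
    refine ⟨h2, j, hj, ?_⟩
    rwa [wk_rev] at h3
  -- the intersection
  have hAB : (u₀ - 2 * β) * N ^ r ≤ (A ∩ B).card := by
    have h2 : U' ⊆ (A ∩ B) ∪ ((U' \ A) ∪ (U' \ B)) := by
      intro z hz
      simp only [Finset.mem_union, Finset.mem_inter, Finset.mem_sdiff]
      tauto
    have h3 := (Finset.card_le_card h2).trans ((Finset.card_union_le _ _).trans
      (Nat.add_le_add_left (Finset.card_union_le _ _) _))
    have h4 : (U'.card : ℝ) ≤ (A ∩ B).card + ((U' \ A).card + (U' \ B).card) := by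
      exact_mod_cast h3
    rw [hUc] at hu₀
    nlinarith
  -- pigeonhole
  obtain ⟨S, hS⟩ : ∃ S : ℕ × ℕ → Finset Ω, S = fun p => (A ∩ B).filter fun z =>
    θ * q ^ I * N ^ p.1 ≤ wk E (r + p.1) s z ∧ θ * q ^ I * N ^ p.2 ≤ wk E (r + p.2) z t := ⟨_, rfl⟩
  obtain ⟨J, hJ⟩ : ∃ J : Finset (ℕ × ℕ), J = Finset.range (I + 1) ×ˢ Finset.range (I + 1) :=
    ⟨_, rfl⟩
  have hcov : A ∩ B ⊆ J.biUnion S := by
    intro z hz
    obtain ⟨hzA, hzB⟩ := Finset.mem_inter.1 hz
    obtain ⟨-, j, hj, h2⟩ := hAm z hzA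
    obtain ⟨-, j', hj', h3⟩ := hBm z hzB
    rw [Finset.mem_biUnion]
    refine ⟨(j, j'), ?_, ?_⟩
    · rw [hJ, Finset.mem_product, Finset.mem_range, Finset.mem_range]
      exact ⟨by omega, by omega⟩
    · rw [hS]
      exact Finset.mem_filter.2 ⟨hz, h2, h3⟩
  have hJc : (J.card : ℝ) = (I + 1) ^ 2 := by
    rw [hJ, Finset.card_product, Finset.card_range]
    push_cast
    ring
  have hex : ∃ p ∈ J, (u₀ - 2 * β) / (I + 1) ^ 2 * N ^ r ≤ (S p).card := by
    by_contra hcon
    push Not at hcon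
    have h2 : ((A ∩ B).card : ℝ) ≤ ∑ p ∈ J, ((S p).card : ℝ) := by
      exact_mod_cast (Finset.card_le_card hcov).trans Finset.card_biUnion_le
    have hne : J.Nonempty := by
      rw [hJ]
      exact ⟨(0, 0), by simp⟩
    have h3 := Finset.sum_lt_sum_of_nonempty hne hcon
    rw [Finset.sum_const, nsmul_eq_mul, hJc] at h3
    have h4 : ((I : ℝ) + 1) ^ 2 * ((u₀ - 2 * β) / (I + 1) ^ 2 * N ^ r) =
        (u₀ - 2 * β) * N ^ r := by field_simp
    rw [h4] at h3
    linarith
  obtain ⟨⟨j, j'⟩, hp, hcard⟩ := hex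
  rw [hJ, Finset.mem_product, Finset.mem_range, Finset.mem_range] at hp
  obtain ⟨hj, hj'⟩ := hp
  change j < I + 1 at hj
  change j' < I + 1 at hj'
  refine ⟨(r + j) + (r + j'), by omega, by omega, ?_⟩
  have hx : 0 ≤ θ * q ^ I * N ^ j := by positivity
  have hx' : 0 ≤ θ * q ^ I * N ^ j' := by positivity
  have h2 : ((S (j, j')).card : ℝ) * ((θ * q ^ I * N ^ j) * (θ * q ^ I * N ^ j')) ≤
      wk E (r + j + (r + j')) s t := by
    rw [wk_add]
    push_cast
    calc ((S (j, j')).card : ℝ) * ((θ * q ^ I * N ^ j) * (θ * q ^ I * N ^ j')) =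
          ∑ z ∈ S (j, j'), ((θ * q ^ I * N ^ j) * (θ * q ^ I * N ^ j')) := by
            rw [Finset.sum_const, nsmul_eq_mul]
      _ ≤ ∑ z ∈ S (j, j'), (wk E (r + j) s z : ℝ) * (wk E (r + j') z t : ℝ) := by
            refine Finset.sum_le_sum fun z hz => ?_
            rw [hS] at hz
            obtain ⟨-, h3, h4⟩ := Finset.mem_filter.1 hz
            exact mul_le_mul h3 h4 hx' (le_trans hx h3)
      _ ≤ ∑ z : Ω, (wk E (r + j) s z : ℝ) * (wk E (r + j') z t : ℝ) :=
            Finset.sum_le_sum_of_subset_of_nonneg (Finset.subset_univ _) fun z _ _ => by positivity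
  refine le_trans ?_ h2
  have e1 : (r + j) + (r + j') - r = r + j + j' := by omega
  rw [e1]
  calc (u₀ - 2 * β) / (I + 1) ^ 2 * (θ * q ^ I) ^ 2 * N ^ (r + j + j') =
        ((u₀ - 2 * β) / (I + 1) ^ 2 * N ^ r) * ((θ * q ^ I * N ^ j) * (θ * q ^ I * N ^ j')) := by
          rw [pow_add, pow_add]; ring
    _ ≤ (S (j, j')).card * ((θ * q ^ I * N ^ j) * (θ * q ^ I * N ^ j')) :=
        mul_le_mul_of_nonneg_right hcard (mul_nonneg hx hx')

end Pool.Agent.KK.H86
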